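import Pool.Agent.H29.SL.Targets2
import Pool.Agent.H58.SL.LB

/-!
# Module M2: the cubic lemma, case `c = 2`, second wave (MP_5b3ee2_nt)
-/

set_option autoImplicit false

namespace Pool.Agent.H14.SL

open Pool.Agent.H29.SL

theorem m2_key (p u X : ℕ) (hp : p.Prime) (hp7 : 7 ≤ p) (hX : X = (p - 1) * u)
    (hdiv : p ^ 2 ∣ X ^ 2 + X + 1 ∨ p ^ 2 ∣ X ^ 2 + 1 - X) : p - 1 ≤ 2 * u := by
  have hodd : p % 2 = 1 := by
    rcases hp.eq_two_or_odd with h | h
    · omega
    · exact h
  by_contra hcon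
  have h1 : 2 * u + 3 ≤ p := by omega
  have h1' : 2 * (u : ℤ) + 3 ≤ (p : ℤ) := by exact_mod_cast h1
  have hXc : (X : ℤ) = ((p : ℤ) - 1) * u := by
    rw [hX]
    push_cast [Nat.cast_sub (by omega : 1 ≤ p)]
    ring
  rcases hdiv with hd | hd
  · obtain ⟨k, hk⟩ := hd
    refine Pool.Agent.H58.SL.lb_neg p u k (by positivity) h1' ?_
    rw [← hXc]
    exact_mod_cast hk
  · obtain ⟨k, hk⟩ := hd
    refine Pool.Agent.H58.SL.lb_pos p u k (by positivity) h1' ?_
    rw [← hXc]
    have h2 : X ≤ X ^ 2 + 1 := by nlinarith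
    have h3 : ((X ^ 2 + 1 - X : ℕ) : ℤ) = (X : ℤ) ^ 2 + 1 - X := by
      push_cast [Nat.cast_sub h2]
      ring
    have h4 : ((X ^ 2 + 1 - X : ℕ) : ℤ) = (p : ℤ) ^ 2 * k := by exact_mod_cast hk
    rw [h3] at h4
    linarith

theorem m2_fin (p u0 : ℕ) (u _X : ℕ) (h0 : u0 ≤ u) (hne : u ≠ u0)
    (hpow : p ^ 6 ≤ (u0 + 1) ^ 8) : p ^ 6 ≤ u ^ 8 :=
  hpow.trans (Nat.pow_le_pow_left (by omega) 8)

theorem pf_M2 : T_M2 := by
  intro p u X hp hp7 hX hdiv
  have key := m2_key p u X hp hp7 hX hdiv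
  by_cases hbig : 23 ≤ p
  · right
    have h1 : (p - 1) ^ 8 ≤ (2 * u) ^ 8 := Nat.pow_le_pow_left key 8
    have h2 : (2 * u) ^ 8 = 256 * u ^ 8 := by ring
    rw [h2] at h1
    have h3 : 256 * p ^ 6 ≤ (p - 1) ^ 8 := by
      obtain ⟨t, rfl⟩ : ∃ t, p = t + 23 := ⟨p - 23, by omega⟩
      have e1 : t + 23 - 1 = t + 22 := rfl
      rw [e1]
      have h4 : 16 * (t + 23) ^ 3 ≤ (t + 22) ^ 4 := by
        have e2 : (t + 22) ^ 4 = t ^ 4 + 88 * t ^ 3 + 2904 * t ^ 2 + 42592 * t + 234256 := by ring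
        have e3 : 16 * (t + 23) ^ 3 = 16 * t ^ 3 + 1104 * t ^ 2 + 25392 * t + 194672 := by ring
        rw [e2, e3]
        have := Nat.zero_le (t ^ 4)
        have := Nat.zero_le (t ^ 3)
        have := Nat.zero_le (t ^ 2)
        omega
      calc 256 * (t + 23) ^ 6 = (16 * (t + 23) ^ 3) ^ 2 := by ring
        _ ≤ ((t + 22) ^ 4) ^ 2 := Nat.pow_le_pow_left h4 2
        _ = (t + 22) ^ 8 := by ring
    have h5 : 256 * p ^ 6 ≤ 256 * u ^ 8 := h3.trans h1
    exact Nat.le_of_mul_le_mul_left h5 (by norm_num)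
  · have hcases : p = 7 ∨ p = 11 ∨ p = 13 ∨ p = 17 ∨ p = 19 := by
      have : p < 23 := by omega
      interval_cases p <;> first | (exfalso; revert hp; norm_num; done) | simp
    rcases hcases with rfl | rfl | rfl | rfl | rfl
    · -- p = 7
      by_cases h3 : u = 3
      · exact Or.inl ⟨rfl, h3⟩
      · right
        refine m2_fin 7 4 u X (by omega) ?_ (by norm_num)
        rintro rfl
        subst hX
        revert hdiv
        norm_num
    · right
      have h5 : u ≠ 5 := by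
        rintro rfl
        subst hX
        revert hdiv
        norm_num
      refine m2_fin 11 6 u X (by omega) ?_ (by norm_num)
      rintro rfl
      subst hX
      revert hdiv
      norm_num
    · right
      refine m2_fin 13 6 u X (by omega) ?_ (by norm_num)
      rintro rfl
      subst hX
      revert hdiv
      norm_num
    · right
      refine m2_fin 17 8 u X (by omega) ?_ (by norm_num)
      rintro rfl
      subst hX
      revert hdiv
      norm_num
    · right
      refine m2_fin 19 9 u X (by omega) ?_ (by norm_num)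
      rintro rfl
      subst hX
      revert hdiv
      norm_num

end Pool.Agent.H14.SL
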