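import Pool.Agent.H29.SL.Targets2

/-!
# Module M4: the cubic lemma, case `c ≥ 4`, second wave (MP_5b3ee2_nt)
-/

set_option autoImplicit false

namespace Pool.Agent.H14.SL

open Pool.Agent.H29.SL

theorem m4_aux (p c u X F : ℕ) (hp7 : 7 ≤ p) (hc : 4 ≤ c) (hX : X = (p - 1) * u)
    (hF1 : F ≠ p ^ c) (hFpos : 0 < F) (hFle : F ≤ (X + 1) ^ 2)
    (hFmod : F ≡ 1 [MOD (p - 1)]) (hF0 : u = 0 → F = 1)
    (hd : p ^ c ∣ F) : p ^ (3 * c) ≤ u ^ 8 := by
  obtain ⟨w, hw⟩ := hd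
  have hpc : 1 < p ^ c := Nat.one_lt_pow (by omega) (by omega)
  have hw0 : 0 < w := by
    rcases Nat.eq_zero_or_pos w with h | h
    · rw [h, mul_zero] at hw; omega
    · exact h
  have hw1 : w ≠ 1 := by
    rintro rfl
    rw [mul_one] at hw
    exact hF1 hw
  have hu : 1 ≤ u := by
    rcases Nat.eq_zero_or_pos u with h | h
    · exfalso
      have h1 := hF0 h
      rw [h1] at hw
      have h2 : p ^ c ∣ 1 := ⟨w, hw⟩
      have h3 := Nat.le_of_dvd one_pos h2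
      omega
    · exact h
  have hpmod : p ≡ 1 [MOD (p - 1)] := by
    have h := (Nat.modEq_iff_dvd' (by omega : 1 ≤ p)).2 (dvd_refl (p - 1))
    exact h.symm
  have hpcmod : p ^ c ≡ 1 [MOD (p - 1)] := by
    have := hpmod.pow c
    rwa [one_pow] at this
  have hwmod : w ≡ 1 [MOD (p - 1)] := by
    have h1 : p ^ c * w ≡ 1 * w [MOD (p - 1)] := hpcmod.mul_right w
    rw [← hw, one_mul] at h1
    exact h1.symm.trans hFmod
  have hwp : p ≤ w := by
    have h1 : (p - 1) ∣ w - 1 := (Nat.modEq_iff_dvd' hw0).1 hwmod.symm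
    have h2 : 0 < w - 1 := by omega
    have h3 := Nat.le_of_dvd h2 h1
    omega
  have h1 : p ^ (c + 1) ≤ (u * p) ^ 2 := by
    calc p ^ (c + 1) = p ^ c * p := pow_succ p c
      _ ≤ p ^ c * w := Nat.mul_le_mul_left _ hwp
      _ = F := hw.symm
      _ ≤ (X + 1) ^ 2 := hFle
      _ ≤ (u * p) ^ 2 := by
        refine Nat.pow_le_pow_left ?_ 2
        rw [hX]
        obtain ⟨q, rfl⟩ : ∃ q, p = q + 1 := ⟨p - 1, by omega⟩
        rw [Nat.add_sub_cancel]
        nlinarith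
  have h2 : p ^ (c - 1) ≤ u ^ 2 := by
    have e1 : p ^ (c + 1) = p ^ (c - 1) * p ^ 2 := by
      rw [← pow_add]
      congr 1
      omega
    rw [e1, mul_pow] at h1
    exact Nat.le_of_mul_le_mul_right h1 (by positivity)
  calc p ^ (3 * c) ≤ p ^ ((c - 1) * 4) := Nat.pow_le_pow_right (by omega) (by omega)
    _ = (p ^ (c - 1)) ^ 4 := pow_mul p (c - 1) 4
    _ ≤ (u ^ 2) ^ 4 := Nat.pow_le_pow_left h2 4
    _ = u ^ 8 := by ring

theorem pf_M4 : T_M4 := by
  intro p c u X hp hp7 hc hX hne1 hne2 hdiv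
  have hXmod : X ≡ 0 [MOD (p - 1)] := by
    rw [hX]
    exact (Nat.modEq_zero_iff_dvd).2 (dvd_mul_right _ _)
  rcases hdiv with hd | hd
  · refine m4_aux p c u X (X ^ 2 + X + 1) hp7 hc hX hne1 (by omega) (by nlinarith) ?_ ?_ hd
    · have h1 : X ^ 2 + X + 1 ≡ 0 ^ 2 + 0 + 1 [MOD (p - 1)] :=
        ((hXmod.pow 2).add hXmod).add_right 1
      simpa using h1
    · rintro rfl
      rw [hX]; simp
  · have h2 : X ≤ X ^ 2 + 1 := by nlinarith
    refine m4_aux p c u X (X ^ 2 + 1 - X) hp7 hc hX ?_ ?_ ?_ ?_ ?_ hd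
    · intro h
      apply hne2
      omega
    · have : X < X ^ 2 + 1 := by nlinarith
      omega
    · have : X ^ 2 + 1 ≤ (X + 1) ^ 2 + X := by nlinarith
      omega
    · have h1 : X ^ 2 + 1 - X + X ≡ 0 ^ 2 + 1 + 0 [MOD (p - 1)] := by
        rw [Nat.sub_add_cancel h2]
        simpa using (hXmod.pow 2).add_right 1
      have h3 : X ^ 2 + 1 - X + X ≡ 1 + X [MOD (p - 1)] := by
        have h4 : 1 + X ≡ 1 + 0 [MOD (p - 1)] := hXmod.add_left 1
        refine h1.trans ?_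
        simpa using h4.symm
      exact Nat.ModEq.add_right_cancel' X h3
    · rintro rfl
      rw [hX]; simp

end Pool.Agent.H14.SL
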