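import Pool.Agent.H20.SL.Basic

/-!
Board sl_modules (MP_bff2e5_gt), module NORM: normal form of a Suslin tree.
-/

set_option autoImplicit false

open Topology Ordinal

namespace Pool.Agent.H14.SL

open Pool.Agent.H20.SL

variable {S : Type} [PartialOrder S]

/-- the initial segment of `t` below height `g` -/
def seg (h : IsTree S) (g : Ordinal.{0}) (t : S) : Set S := {s | s ≤ t ∧ ht h s < g}

theorem seg_mono (h : IsTree S) {g g' : Ordinal.{0}} (hg : g ≤ g') (t : S) :
    seg h g t ⊆ seg h g' t := fun _ hs => ⟨hs.1, hs.2.trans_le hg⟩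

theorem seg_sub (h : IsTree S) {g g' : Ordinal.{0}} {t t' : S} (hg : g ≤ ht h t)
    (hsub : seg h g t ⊆ seg h g' t') : g ≤ g' ∧ seg h g t = seg h g t' := by
  refine ⟨?_, ?_⟩
  · by_contra hlt
    push Not at hlt
    obtain ⟨s, hs, hs'⟩ := exists_ht h (hlt.le.trans hg)
    have h1 : s ∈ seg h g t := ⟨hs, by rw [hs']; exact hlt⟩
    have h2 := (hsub h1).2
    rw [hs'] at h2
    exact lt_irrefl _ h2
  · ext s
    constructor
    · intro hs
      exact ⟨(hsub hs).1, hs.2⟩
    · intro hs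
      obtain ⟨s', hs1, hs2⟩ := exists_ht h (hs.2.le.trans hg)
      have h1 : s' ∈ seg h g t := ⟨hs1, by rw [hs2]; exact hs.2⟩
      have h2 := (hsub h1).1
      have h3 : s' = s := eq_of_ht h h2 hs.1 hs2
      rw [← h3]
      exact h1

theorem seg_eq (h : IsTree S) {g g' : Ordinal.{0}} {t t' : S} (hg : g ≤ ht h t)
    (hg' : g' ≤ ht h t') (heq : seg h g t = seg h g' t') : g = g' :=
  le_antisymm (seg_sub h hg heq.subset).1 (seg_sub h hg' heq.symm.subset).1

theorem seg_restrict (h : IsTree S) {g : Ordinal.{0}} {s t : S} (hs : s ≤ t)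
    (hg : g ≤ ht h s) : seg h g s = seg h g t := by
  ext x
  constructor
  · intro hx
    exact ⟨hx.1.trans hs, hx.2⟩
  · intro hx
    exact ⟨le_of_ht h hx.1 hs (hx.2.le.trans hg), hx.2⟩

/-- the combinatorial data from which the normal form is built -/
structure Dat (S : Type) [PartialOrder S] (h : IsTree S) (Big : S → Prop)
    (C : Set Ordinal.{0}) : Prop where
  slim : Slim S h
  anti : ∀ A : Set S, IsAntichain (· ≤ ·) A → A.Countable
  down : ∀ s t, s ≤ t → Big t → Big s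
  ne : ∃ t, Big t
  ext : ∀ t, Big t → ∀ o < ω₁, ∃ t', t ≤ t' ∧ Big t' ∧ o ≤ ht h t'
  lt : ∀ g ∈ C, g < ω₁
  unb : ∀ o < ω₁, ∃ g ∈ C, o < g
  sup : ∀ D ⊆ C, D.Nonempty → ∀ g < ω₁, (∀ d ∈ D, d ≤ g) → sSup D ∈ C
  split : ∀ t, Big t → ∀ g ∈ C, ht h t < g → ∃ u : ℕ → S,
    (∀ i, t ≤ u i ∧ Big (u i) ∧ ht h (u i) < g) ∧ ∀ i j, i ≠ j → ¬ u i ≤ u j

/-- the nodes of the normal form -/
def Node (h : IsTree S) (Big : S → Prop) (C : Set Ordinal.{0}) : Type :=
  {A : Set S // ∃ g ∈ C, ∃ t, Big t ∧ g ≤ ht h t ∧ A = seg h g t}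

variable {h : IsTree S} {Big : S → Prop} {C : Set Ordinal.{0}}

instance : PartialOrder (Node h Big C) :=
  inferInstanceAs (PartialOrder {_A : Set S // _})

theorem Node.le_iff (x y : Node h Big C) : x ≤ y ↔ x.1 ⊆ y.1 := Iff.rfl

/-- the level of a node -/
noncomputable def lev (x : Node h Big C) : Ordinal.{0} := x.2.choose

theorem lev_mem (x : Node h Big C) : lev x ∈ C := x.2.choose_spec.1

theorem lev_spec (x : Node h Big C) : ∃ t, Big t ∧ lev x ≤ ht h t ∧ x.1 = seg h (lev x) t :=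
  x.2.choose_spec.2

theorem lev_eq (x : Node h Big C) {g : Ordinal.{0}} {t : S} (hg : g ≤ ht h t)
    (hx : x.1 = seg h g t) : lev x = g := by
  obtain ⟨t', _, h2, h3⟩ := lev_spec x
  exact seg_eq h h2 hg (h3.symm.trans hx)

/-- a node below another one is a restriction of it -/
theorem eq_restrict {x y : Node h Big C} (hxy : x ≤ y) {g : Ordinal.{0}} {t : S}
    (hy : y.1 = seg h g t) : lev x ≤ g ∧ x.1 = seg h (lev x) t := by
  obtain ⟨t', _, h2, h3⟩ := lev_spec x
  have h4 : seg h (lev x) t' ⊆ seg h g t := by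
    rw [← h3, ← hy]
    exact hxy
  have h5 := seg_sub h h2 h4
  exact ⟨h5.1, h3.trans h5.2⟩

theorem lev_lt {x y : Node h Big C} (hxy : x < y) : lev x < lev y := by
  obtain ⟨t', _, h2, h3⟩ := lev_spec y
  have h5 := eq_restrict hxy.le h3
  refine lt_of_le_of_ne h5.1 fun he => hxy.ne ?_
  apply Subtype.ext
  rw [h5.2, he, ← h3]

theorem node_tree : IsTree (Node h Big C) where
  comp := by
    intro a b t ha hb
    obtain ⟨t', _, _, h3⟩ := lev_spec t
    have h4 := eq_restrict ha h3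
    have h5 := eq_restrict hb h3
    rcases le_total (lev a) (lev b) with hl | hl
    · left
      rw [Node.le_iff, h4.2, h5.2]
      exact seg_mono h hl t'
    · right
      rw [Node.le_iff, h4.2, h5.2]
      exact seg_mono h hl t'
  wf := Subrelation.wf (fun {_ _} hxy => lev_lt hxy) (InvImage.wf lev Ordinal.lt_wf)

/-- the restriction of a node to a smaller level in `C` -/
theorem exists_restrict {g g' : Ordinal.{0}} {t : S} (hg' : g' ∈ C)
    (hle : g' ≤ g) (ht1 : Big t) (hg : g ≤ ht h t) :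
    ∃ x : Node h Big C, x.1 = seg h g' t ∧ lev x = g' := by
  refine ⟨⟨seg h g' t, g', hg', t, ht1, hle.trans hg, rfl⟩, rfl, ?_⟩
  exact lev_eq _ (hle.trans hg) rfl

theorem node_union (hD : Dat S h Big C) (x : Node h Big C) (hx : LimTy x) (s : S)
    (hs : s ∈ x.1) : ∃ p : Node h Big C, p < x ∧ s ∈ p.1 := by
  obtain ⟨t, h1, h2, h3⟩ := lev_spec x
  set D : Set Ordinal.{0} := {g | g ∈ C ∧ g < lev x} with hDdef
  by_cases hex : ∃ g ∈ D, ht h s < g
  · obtain ⟨g, ⟨hgC, hgx⟩, hsg⟩ := hex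
    obtain ⟨p, hp1, hp2⟩ := exists_restrict hgC hgx.le h1 h2
    refine ⟨p, lt_of_le_of_ne ?_ ?_, ?_⟩
    · rw [Node.le_iff, hp1, h3]
      exact seg_mono h hgx.le t
    · intro he
      rw [he] at hp2
      exact hgx.ne hp2.symm
    · rw [hp1]
      rw [h3] at hs
      exact ⟨hs.1, hsg⟩
  · exfalso
    push Not at hex
    obtain ⟨⟨q, hq⟩, hlim⟩ := hx
    have hDne : D.Nonempty := ⟨lev q, lev_mem q, lev_lt hq⟩
    have hxs : ht h s < lev x := by
      rw [h3] at hs
      exact hs.2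
    have hbd : ∀ d ∈ D, d ≤ ht h s := hex
    have hsup : sSup D ∈ C := hD.sup D (fun d hd => hd.1) hDne (ht h s)
      (hxs.trans (hD.lt _ (lev_mem x))) hbd
    have hsle : sSup D ≤ ht h s := csSup_le hDne hbd
    have hslt : sSup D < lev x := hsle.trans_lt hxs
    obtain ⟨p, hp1, hp2⟩ := exists_restrict hsup hslt.le h1 h2
    have hpx : p < x := by
      refine lt_of_le_of_ne ?_ ?_
      · rw [Node.le_iff, hp1, h3]
        exact seg_mono h hslt.le t
      · intro he
        rw [he] at hp2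
        exact hslt.ne hp2.symm
    obtain ⟨r, hr1, hr2⟩ := hlim p hpx
    have h4 : lev r ∈ D := ⟨lev_mem r, lev_lt hr2⟩
    have h5 : lev r ≤ sSup D := le_csSup ⟨ht h s, hbd⟩ h4
    have h6 := lev_lt hr1
    rw [hp2] at h6
    exact absurd h5 (not_le.2 h6)

theorem node_haus (hD : Dat S h Big C) : Haus (Node h Big C) := by
  intro x y hx hxy
  have hy : LimTy y := by
    obtain ⟨⟨s, hs⟩, hl⟩ := hx
    refine ⟨⟨s, (hxy s).1 hs⟩, fun s hs => ?_⟩
    obtain ⟨s', h1, h2⟩ := hl s ((hxy s).2 hs)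
    exact ⟨s', h1, (hxy s').1 h2⟩
  apply Subtype.ext
  apply Set.Subset.antisymm
  · intro s hs
    obtain ⟨p, hp, hsp⟩ := node_union hD x hx s hs
    exact ((hxy p).1 hp).le hsp
  · intro s hs
    obtain ⟨p, hp, hsp⟩ := node_union hD y hy s hs
    exact ((hxy p).2 hp).le hsp

/-- the immediate successors of a node -/
def Succs (p : Node h Big C) (g : Ordinal.{0}) : Set (Node h Big C) :=
  {q | p ≤ q ∧ lev q = g}

theorem succs_countable (hD : Dat S h Big C) (p : Node h Big C) (g : Ordinal.{0}) :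
    (Succs p g).Countable := by
  classical
  have hlevel := hD.slim.2 g
  have hex : ∀ q : Node h Big C, ∃ s : S, lev q = g → ht h s = g ∧ q.1 = seg h g s := by
    intro q
    by_cases hq : lev q = g
    · obtain ⟨t, _, h2, h3⟩ := lev_spec q
      obtain ⟨s, hs1, hs2⟩ := exists_ht h h2
      refine ⟨s, fun _ => ⟨hs2.trans hq, ?_⟩⟩
      rw [h3, ← hq]
      exact (seg_restrict h hs1 hs2.ge).symm
    · obtain ⟨t, _⟩ := hD.ne
      exact ⟨t, fun h' => absurd h' hq⟩
  choose f hf using hex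
  have hinj : Set.InjOn f (Succs p g) := by
    intro q hq q' hq' he
    apply Subtype.ext
    rw [(hf q hq.2).2, (hf q' hq'.2).2, he]
  refine Set.MapsTo.countable_of_injOn (t := {t : S | ht h t = g}) ?_ hinj hlevel
  intro q hq
  exact (hf q hq.2).1

theorem succs_infinite (hD : Dat S h Big C) (p : Node h Big C) {g : Ordinal.{0}} (hg : g ∈ C)
    (hpg : lev p < g) : (Succs p g).Infinite := by
  obtain ⟨t, h1, h2, h3⟩ := lev_spec p
  obtain ⟨t0, ht0, hht0⟩ := exists_ht h h2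
  have hb0 : Big t0 := hD.down t0 t ht0 h1
  have h4 : p.1 = seg h (lev p) t0 := by
    rw [h3]
    exact (seg_restrict h ht0 hht0.ge).symm
  obtain ⟨u, hu, hinc⟩ := hD.split t0 hb0 g hg (by rw [hht0]; exact hpg)
  have hex : ∀ i, ∃ t', u i ≤ t' ∧ Big t' ∧ g ≤ ht h t' := fun i =>
    hD.ext (u i) (hu i).2.1 g (hD.lt g hg)
  choose w hw using hex
  let f : ℕ → Node h Big C := fun i => ⟨seg h g (w i), g, hg, w i, (hw i).2.1, (hw i).2.2, rfl⟩
  have hfi : Function.Injective f := by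
    intro i j hij
    by_contra hne
    have h5 : seg h g (w i) = seg h g (w j) := congrArg Subtype.val hij
    have h6 : u i ∈ seg h g (w i) := ⟨(hw i).1, (hu i).2.2⟩
    rw [h5] at h6
    rcases h.comp (u i) (u j) (w j) h6.1 (hw j).1 with h7 | h7
    · exact hinc i j hne h7
    · exact hinc j i (Ne.symm hne) h7
  refine Set.infinite_of_injective_forall_mem hfi fun i => ⟨?_, lev_eq _ (hw i).2.2 rfl⟩
  rw [Node.le_iff, h4]
  intro s hs
  exact ⟨(hs.1.trans (hu i).1).trans (hw i).1, hs.2.trans hpg⟩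

theorem exists_next (hD : Dat S h Big C) (o : Ordinal.{0}) (ho : o < ω₁) :
    ∃ g ∈ C, o < g ∧ ∀ g' ∈ C, o < g' → g ≤ g' := by
  obtain ⟨g, ⟨hg1, hg2⟩, hg3⟩ := Ordinal.lt_wf.has_min {g | g ∈ C ∧ o < g} (by
    obtain ⟨g, hg, hog⟩ := hD.unb o ho
    exact ⟨g, hg, hog⟩)
  exact ⟨g, hg1, hg2, fun g' h1 h2 => not_lt.1 (hg3 g' ⟨h1, h2⟩)⟩

theorem norm_of_dat (hD : Dat S h Big C) :
    ∃ (N : Type) (_ : PartialOrder N) (child : N → ℕ → N), NTree N child := by
  classical
  have hnext : ∀ p : Node h Big C, ∃ g ∈ C, lev p < g ∧ ∀ g' ∈ C, lev p < g' → g ≤ g' :=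
    fun p => exists_next hD _ (hD.lt _ (lev_mem p))
  choose nx hnxC hnxlt hnxle using hnext
  have hbij : ∀ p : Node h Big C, Nonempty (ℕ ≃ Succs p (nx p)) := by
    intro p
    have h1 : Countable (Succs p (nx p)) := (succs_countable hD p (nx p)).to_subtype
    have h2 : Infinite (Succs p (nx p)) := (succs_infinite hD p (hnxC p) (hnxlt p)).to_subtype
    exact nonempty_equiv_of_countable
  let e : ∀ p : Node h Big C, ℕ ≃ Succs p (nx p) := fun p => (hbij p).some
  refine ⟨Node h Big C, inferInstance, fun p k => (e p k : Node h Big C), ?_⟩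
  refine ⟨node_tree, node_haus hD, ?_, ?_, ?_, ?_⟩
  · intro p q
    constructor
    · intro hpq
      obtain ⟨t, h1, h2, h3⟩ := lev_spec q
      have h4 : nx p ≤ lev q := hnxle p _ (lev_mem q) (lev_lt hpq)
      obtain ⟨c, hc1, hc2⟩ := exists_restrict (hnxC p) h4 h1 h2
      have h5 := eq_restrict hpq.le h3
      have hpc : p ≤ c := by
        rw [Node.le_iff, hc1, h5.2]
        exact seg_mono h (hnxlt p).le t
      refine ⟨(e p).symm ⟨c, hpc, hc2⟩, ?_⟩
      rw [Equiv.apply_symm_apply, Node.le_iff, hc1, h3]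
      exact seg_mono h h4 t
    · rintro ⟨k, hk⟩
      refine lt_of_lt_of_le (lt_of_le_of_ne (e p k).2.1 ?_) hk
      intro he
      have h1 := (e p k).2.2
      rw [← he] at h1
      exact (hnxlt p).ne h1
  · intro p k k' q hk hk'
    obtain ⟨t, h1, h2, h3⟩ := lev_spec q
    have h4 := (eq_restrict hk h3).2
    have h5 := (eq_restrict hk' h3).2
    rw [(e p k).2.2] at h4
    rw [(e p k').2.2] at h5
    apply (e p).injective
    apply Subtype.ext
    apply Subtype.ext
    rw [h4, h5]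
  · intro A hA
    have hex : ∀ x : Node h Big C, ∃ s : S, ht h s = lev x ∧ x.1 = seg h (lev x) s := by
      intro x
      obtain ⟨t, _, h2, h3⟩ := lev_spec x
      obtain ⟨s, hs1, hs2⟩ := exists_ht h h2
      exact ⟨s, hs2, h3.trans (seg_restrict h hs1 hs2.ge).symm⟩
    choose f hf using hex
    have hcmp : ∀ x y : Node h Big C, f x ≤ f y → x ≤ y := by
      intro x y hxy
      have h1 : lev x ≤ lev y := by
        rw [← (hf x).1, ← (hf y).1]
        exact ht_le h hxy
      rw [Node.le_iff, (hf x).2, (hf y).2]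
      intro s hs
      exact ⟨hs.1.trans hxy, hs.2.trans_le h1⟩
    have hinj : Set.InjOn f A := by
      intro x hx y hy he
      exact le_antisymm (hcmp x y he.le) (hcmp y x he.ge)
    have hanti : IsAntichain (· ≤ ·) (f '' A) := by
      rintro _ ⟨x, hx, rfl⟩ _ ⟨y, hy, rfl⟩ hne hle
      exact hA hx hy (fun he => hne (by rw [he])) (hcmp x y hle)
    exact Set.countable_of_injective_of_countable_image hinj (hD.anti _ hanti)
  · intro hcount
    obtain ⟨o, ho, hle⟩ := bdd_w1 (fun x : Node h Big C => lev x)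
      (fun x => hD.lt _ (lev_mem x))
    obtain ⟨g, hg, hog⟩ := hD.unb o ho
    obtain ⟨t, hb⟩ := hD.ne
    obtain ⟨t', _, hb', hgt⟩ := hD.ext t hb g (hD.lt g hg)
    obtain ⟨x, _, hx⟩ := exists_restrict hg le_rfl hb' hgt
    have := hle x
    rw [hx] at this
    exact absurd this (not_le.2 hog)

/-! ### construction of the data -/

section build

variable (h)

theorem big_ext (hS : Slim S h) (t : S) (ht0 : ¬ (Set.Ici t).Countable) (o : Ordinal.{0})
    (ho : o < ω₁) : ∃ t', t ≤ t' ∧ ¬ (Set.Ici t').Countable ∧ o ≤ ht h t' := by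
  by_contra hcon
  push Not at hcon
  apply ht0
  have hlt : ht h t < ω₁ := ht_lt_omega_one h hS.1 t
  set o' := max o (ht h t) with ho'
  have ho'1 : o' < ω₁ := max_lt ho hlt
  have hsub : Set.Ici t ⊆ {x | ht h x ≤ o'} ∪
      ⋃ s ∈ {s | ht h s = o' ∧ t ≤ s}, Set.Ici s := by
    intro x hx
    by_cases hx2 : ht h x ≤ o'
    · exact Or.inl hx2
    · right
      push Not at hx2
      obtain ⟨s, hs, hs'⟩ := exists_ht h hx2.le
      rw [Set.mem_iUnion₂]
      refine ⟨s, ⟨hs', ?_⟩, hs⟩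
      refine le_of_ht h hx hs ?_
      rw [hs']
      exact le_max_right _ _
  refine Set.Countable.mono hsub (Set.Countable.union (below_countable h hS ho'1) ?_)
  refine Set.Countable.biUnion ((hS.2 o').mono fun s hs => hs.1) fun s hs => ?_
  by_contra hnc
  have := hcon s hs.2 hnc
  rw [hs.1] at this
  exact absurd (le_max_left o (ht h t)) (not_le.2 this)

theorem big_down (s t : S) (hst : s ≤ t) (ht0 : ¬ (Set.Ici t).Countable) :
    ¬ (Set.Ici s).Countable := fun hc => ht0 (hc.mono fun _ hx => hst.trans hx)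

theorem big_ne (hS : Slim S h) (hunc : ¬ Countable S) : ∃ t : S, ¬ (Set.Ici t).Countable := by
  by_contra hcon
  push Not at hcon
  apply hunc
  rw [← Set.countable_univ_iff]
  have hsub : (Set.univ : Set S) ⊆ ⋃ s ∈ {s | ht h s = 0}, Set.Ici s := by
    intro x _
    obtain ⟨s, hs, hs'⟩ := exists_ht h (zero_le : (0 : Ordinal.{0}) ≤ ht h x)
    rw [Set.mem_iUnion₂]
    exact ⟨s, hs', hs⟩
  exact Set.Countable.mono hsub (Set.Countable.biUnion (hS.2 0) fun s _ => hcon s)

theorem big_split (hS : Slim S h) (hch : ∀ C : Set S, IsChain (· ≤ ·) C → C.Countable) (t : S)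
    (ht0 : ¬ (Set.Ici t).Countable) : ∃ a b, t ≤ a ∧ t ≤ b ∧ ¬ (Set.Ici a).Countable ∧
      ¬ (Set.Ici b).Countable ∧ ¬ a ≤ b ∧ ¬ b ≤ a := by
  by_contra hcon
  push Not at hcon
  have hchain : IsChain (· ≤ ·) {x | t ≤ x ∧ ¬ (Set.Ici x).Countable} := by
    intro a ha b hb _
    by_cases hab : a ≤ b
    · exact Or.inl hab
    · exact Or.inr (hcon a b ha.1 hb.1 ha.2 hb.2 hab)
  have hcount := (hch _ hchain).to_subtype
  obtain ⟨o, ho, hle⟩ := bdd_w1 (fun x : {x | t ≤ x ∧ ¬ (Set.Ici x).Countable} => ht h (x : S))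
    (fun x => ht_lt_omega_one h hS.1 _)
  obtain ⟨t', h1, h2, h3⟩ := big_ext h hS t ht0 (Order.succ o) (succ_lt_w1 ho)
  have h4 := hle ⟨t', h1, h2⟩
  exact absurd (Order.lt_succ o) (not_lt.2 (h3.trans h4))

theorem big_seq (hS : Slim S h) (hch : ∀ C : Set S, IsChain (· ≤ ·) C → C.Countable) (t : S)
    (ht0 : ¬ (Set.Ici t).Countable) : ∃ u : ℕ → S,
    (∀ i, t ≤ u i ∧ ¬ (Set.Ici (u i)).Countable) ∧ ∀ i j, i ≠ j → ¬ u i ≤ u j := by
  classical
  have hex : ∀ x : {x : S // ¬ (Set.Ici x).Countable}, ∃ a b : {x : S // ¬ (Set.Ici x).Countable},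
      (x : S) ≤ a ∧ (x : S) ≤ b ∧ ¬ (a : S) ≤ b ∧ ¬ (b : S) ≤ a := by
    intro x
    obtain ⟨a, b, h1, h2, h3, h4, h5, h6⟩ := big_split h hS hch x x.2
    exact ⟨⟨a, h3⟩, ⟨b, h4⟩, h1, h2, h5, h6⟩
  choose f g hf hg hfg hgf using hex
  let w : ℕ → {x : S // ¬ (Set.Ici x).Countable} := fun n => g^[n] ⟨t, ht0⟩
  have hw : ∀ n, w (n + 1) = g (w n) := fun n => Function.iterate_succ_apply' g n _
  have hwmono : ∀ i k, (w i : S) ≤ w (i + k) := by
    intro i k
    induction k with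
    | zero => exact le_rfl
    | succ k ih =>
      refine ih.trans ?_
      rw [← add_assoc, hw]
      exact hg _
  have hkey : ∀ i j, i < j → ¬ (f (w i) : S) ≤ f (w j) ∧ ¬ (f (w j) : S) ≤ f (w i) := by
    intro i j hij
    obtain ⟨k, rfl⟩ := Nat.exists_eq_add_of_lt hij
    have h1 : (g (w i) : S) ≤ w (i + k + 1) := by
      have := hwmono (i + 1) k
      rw [hw] at this
      have h2 : i + 1 + k = i + k + 1 := by ring
      rwa [h2] at this
    have h3 : (g (w i) : S) ≤ f (w (i + k + 1)) := h1.trans (hf _)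
    constructor
    · intro hle
      rcases h.comp _ _ _ hle h3 with h4 | h4
      · exact hfg _ h4
      · exact hgf _ h4
    · intro hle
      exact hgf _ (h3.trans hle)
  refine ⟨fun n => f (w n), fun i => ⟨?_, (f (w i)).2⟩, ?_⟩
  · have := hwmono 0 i
    rw [zero_add] at this
    exact this.trans (hf _)
  · intro i j hij
    rcases lt_or_gt_of_ne hij with hlt | hlt
    · exact (hkey i j hlt).1
    · exact (hkey j i hlt).2

end build

/-- NORM -/
theorem norm : T_NORM := by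
  classical
  intro S _ h hch hanti hunc
  have hS : Slim S h := by
    refine ⟨fun t => hch _ ?_, fun o => hanti _ (level_antichain h o)⟩
    intro a ha b hb _
    exact h.comp a b t ha hb
  have hex : ∀ t : S, ∃ u : ℕ → S, ¬ (Set.Ici t).Countable →
      (∀ i, t ≤ u i ∧ ¬ (Set.Ici (u i)).Countable) ∧ ∀ i j, i ≠ j → ¬ u i ≤ u j := by
    intro t
    by_cases ht0 : (Set.Ici t).Countable
    · exact ⟨fun _ => t, fun hc => absurd ht0 hc⟩
    · obtain ⟨u, hu⟩ := big_seq h hS hch t ht0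
      exact ⟨u, fun _ => hu⟩
  choose u hu using hex
  have hex2 : ∀ t : S, ∃ o, o < ω₁ ∧ ∀ i, ht h (u t i) ≤ o := fun t =>
    bdd_w1 (fun i => ht h (u t i)) (fun i => ht_lt_omega_one h hS.1 _)
  choose ob hob hobu using hex2
  set C : Set Ordinal.{0} := {g | g < ω₁ ∧ ∀ t : S, ht h t < g → ob t < g} with hC
  refine norm_of_dat (h := h) (Big := fun t => ¬ (Set.Ici t).Countable) (C := C) ?_
  refine ⟨hS, hanti, big_down, big_ne h hS hunc, big_ext h hS, fun g hg => hg.1, ?_, ?_, ?_⟩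
  · intro o ho
    have hstep : ∀ g : {g : Ordinal.{0} // g < ω₁}, ∃ g' : {g : Ordinal.{0} // g < ω₁},
        (g : Ordinal.{0}) < g' ∧ ∀ t : S, ht h t ≤ g → ob t < g' := by
      intro g
      have hc : Countable {t : S | ht h t ≤ g} := (below_countable h hS g.2).to_subtype
      obtain ⟨b, hb, hle⟩ := bdd_w1 (fun t : {t : S | ht h t ≤ g} => ob (t : S))
        (fun t => hob _)
      refine ⟨⟨Order.succ (max g.1 b), succ_lt_w1 (max_lt g.2 hb)⟩, ?_, fun t ht0 => ?_⟩
      · exact Order.lt_succ_iff.2 (le_max_left _ _)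
      · exact Order.lt_succ_iff.2 ((hle ⟨t, ht0⟩).trans (le_max_right _ _))
    choose nx hnx1 hnx2 using hstep
    let w : ℕ → {g : Ordinal.{0} // g < ω₁} := fun n => nx^[n] ⟨Order.succ o, succ_lt_w1 ho⟩
    have hw : ∀ n, w (n + 1) = nx (w n) := fun n => Function.iterate_succ_apply' nx n _
    refine ⟨⨆ n, (w n : Ordinal.{0}), ⟨Ordinal.iSup_lt_omega_one fun n => (w n).2, ?_⟩, ?_⟩
    · intro t ht0
      obtain ⟨n, hn⟩ := Ordinal.lt_iSup_iff.1 ht0
      refine lt_of_lt_of_le (hnx2 (w n) t hn.le) ?_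
      rw [← hw]
      exact Ordinal.le_iSup (fun n => (w n : Ordinal.{0})) (n + 1)
    · have h0 : (w 0 : Ordinal.{0}) = Order.succ o := rfl
      refine lt_of_lt_of_le (Order.lt_succ o) ?_
      rw [← h0]
      exact Ordinal.le_iSup (fun n => (w n : Ordinal.{0})) 0
  · intro D hD hDne g hg hle
    refine ⟨(csSup_le hDne hle).trans_lt hg, ?_⟩
    intro t ht0
    obtain ⟨d, hd, htd⟩ := exists_lt_of_lt_csSup hDne ht0
    exact ((hD hd).2 t htd).trans_le (le_csSup ⟨g, hle⟩ hd)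
  · intro t ht0 g hg htg
    have h1 := hu t ht0
    refine ⟨u t, fun i => ⟨(h1.1 i).1, (h1.1 i).2, ?_⟩, h1.2⟩
    exact (hobu t i).trans_lt (hg.2 t htg)

end Pool.Agent.H14.SL
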